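import Pool.Agent.N226.BM.Main

/-!
# Baby Mandelbrot sets cut by the branch cut (negative answer to Q1)

For every odd `k ≥ 3` and every `n ≥ 2000 k³` the parameter `a_k` is not the centre of a baby
Mandelbrot set in the `a`-plane of `r_{n,a}`.

Idea of the proof. The family is defined through the principal roots of `a`, so it is
discontinuous along the negative real axis. The centre `a_k` has argument `-π (n-k)/(n-1)`,
which is within `π (k-1)/(n-1)` of `-π`, while the main hyperbolic component of the would-be
baby Mandelbrot set has angular size much bigger than that. Following the arc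
`|a| = |a_k|` from `a_k` down to the cut inside the baby Mandelbrot set (the multiplier of the
fixed point attracting `v_-` determines the straightened parameter), one arrives at the point
`-|a_k|` of the cut; there the limit of the multipliers from below is some `ρ` which is not real,
while the map at the point itself has multiplier `conj ρ`: this contradicts the continuity of the
homeomorphism `χ`.
-/

set_option autoImplicit false

namespace Pool.Agent.Results.MP_c7ceaf_an.BranchCut

open Pool.Agent.N226.BM

/-- For every odd `k ≥ 3` and every `n ≥ 2000 k³` (so that `n ≥ 3` and `3 ≤ k ≤ 2n - 3`), the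
parameter `a_k` is not the centre of a baby Mandelbrot set in the `a`-plane of `r_{n,a}`. -/
theorem result (n k : ℕ) (hk : Odd k) (hk3 : 3 ≤ k) (hn : 2000 * k ^ 3 ≤ n) :
    3 ≤ n ∧ k ≤ 2 * n - 3 ∧ ¬ IsBabyCentre n (center n k) := by
  have h1 : k ≤ k ^ 3 := Nat.le_self_pow (by norm_num) k
  refine ⟨by omega, by omega, main hk hk3 hn⟩

end Pool.Agent.Results.MP_c7ceaf_an.BranchCut
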